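import Mathlib

set_option autoImplicit false

/-!
# Generalised Collatz maps: iterates, words with small periods, general version
-/

open Finset

namespace Pool.Agent.J6H87.SX

/-- the generalised Collatz map with modulus `d`, multipliers `m i`, offsets `r i` -/
def TG (d : ℕ) (m r : ℤ → ℤ) (x : ℤ) : ℤ := (m (x % d) * x - r (x % d)) / d

/-- admissible data -/
structure Dat (d : ℕ) (m r : ℤ → ℤ) : Prop where
  hd : 2 ≤ d
  ne : ∀ i, m i ≠ 0
  adm : ∀ x : ℤ, (d : ℤ) ∣ m (x % d) * x - r (x % d)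

/-- the residue word of the trajectory -/
def wd (d : ℕ) (m r : ℤ → ℤ) (x : ℤ) (j : ℕ) : ℤ := (TG d m r)^[j] x % d

/-- product of the multipliers over `[a, a + l)` -/
def mu (m : ℤ → ℤ) (w : ℕ → ℤ) (a : ℕ) : ℕ → ℤ
  | 0 => 1
  | l + 1 => m (w (a + l)) * mu m w a l

/-- the offset of the composition over `[a, a + l)` -/
def off (d : ℕ) (m r : ℤ → ℤ) (w : ℕ → ℤ) (a : ℕ) : ℕ → ℤ
  | 0 => 0
  | l + 1 => m (w (a + l)) * off d m r w a l - (d : ℤ) ^ l * r (w (a + l))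

/-- the height bound -/
def HH (d : ℕ) (m r : ℤ → ℤ) : ℕ := d + ∑ i ∈ range d, ((m i).natAbs + (r i).natAbs)

section

variable {d : ℕ} {m r : ℤ → ℤ}

lemma TG_rec (D : Dat d m r) (x : ℤ) : (d : ℤ) * TG d m r x = m (x % d) * x - r (x % d) :=
  Int.mul_ediv_cancel' (D.adm x)

lemma iter_rec (D : Dat d m r) (x : ℤ) (a l : ℕ) :
    (d : ℤ) ^ l * (TG d m r)^[a + l] x = mu m (wd d m r x) a l * (TG d m r)^[a] x +
      off d m r (wd d m r x) a l := by
  induction l with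
  | zero => simp [mu, off]
  | succ l ih =>
    have h1 : (TG d m r)^[a + (l + 1)] x = TG d m r ((TG d m r)^[a + l] x) := by
      rw [← add_assoc, Function.iterate_succ_apply']
    rw [h1, pow_succ, mul_assoc, TG_rec D, mu, off]
    have h2 : (TG d m r)^[a + l] x % d = wd d m r x (a + l) := rfl
    rw [h2, mul_sub, mul_left_comm, ih]
    ring

lemma mu_ne (D : Dat d m r) (w : ℕ → ℤ) (a l : ℕ) : mu m w a l ≠ 0 := by
  induction l with
  | zero => simp [mu]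
  | succ l ih => rw [mu]; exact mul_ne_zero (D.ne _) ih

lemma mu_add (w : ℕ → ℤ) (a l l' : ℕ) : mu m w a (l + l') = mu m w a l * mu m w (a + l) l' := by
  induction l' with
  | zero => simp [mu]
  | succ l' ih =>
    rw [← add_assoc, mu, mu, ih, add_assoc]
    ring

lemma mu_congr {w : ℕ → ℤ} {a a' l : ℕ} (h : ∀ j < l, w (a + j) = w (a' + j)) :
    mu m w a l = mu m w a' l := by
  induction l with
  | zero => rfl
  | succ l ih =>
    rw [mu, mu, ih fun j hj => h j (by omega), h l (by omega)]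

lemma off_congr {w : ℕ → ℤ} {a a' l : ℕ} (h : ∀ j < l, w (a + j) = w (a' + j)) :
    off d m r w a l = off d m r w a' l := by
  induction l with
  | zero => rfl
  | succ l ih =>
    rw [off, off, ih fun j hj => h j (by omega), h l (by omega)]

lemma wd_mem (D : Dat d m r) (x : ℤ) (j : ℕ) : ∃ i ∈ range d, wd d m r x j = (i : ℤ) := by
  have hd : (0 : ℤ) < d := by have := D.hd; omega
  have h1 := Int.emod_nonneg ((TG d m r)^[j] x) hd.ne'
  have h2 := Int.emod_lt_of_pos ((TG d m r)^[j] x) hd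
  refine ⟨((TG d m r)^[j] x % d).toNat, ?_, ?_⟩
  · rw [mem_range]; omega
  · unfold wd; omega

lemma le_HH (D : Dat d m r) (x : ℤ) (j : ℕ) :
    |m (wd d m r x j)| + |r (wd d m r x j)| + d ≤ (HH d m r : ℤ) := by
  obtain ⟨i, hi, h⟩ := wd_mem D x j
  rw [h]
  unfold HH
  have h1 : (m i).natAbs + (r i).natAbs ≤ ∑ i ∈ range d, ((m i).natAbs + (r i).natAbs) :=
    single_le_sum (f := fun i : ℕ => (m i).natAbs + (r i).natAbs) (fun _ _ => Nat.zero_le _) hi
  have h2 : |m (i : ℤ)| = ((m i).natAbs : ℤ) := Int.abs_eq_natAbs _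
  have h3 : |r (i : ℤ)| = ((r i).natAbs : ℤ) := Int.abs_eq_natAbs _
  rw [h2, h3]
  push_cast at h1 ⊢
  have h4 : ((m i).natAbs : ℤ) + ((r i).natAbs : ℤ) ≤
      ∑ i ∈ range d, (((m i).natAbs : ℤ) + ((r i).natAbs : ℤ)) := by exact_mod_cast h1
  simp only [Int.natCast_natAbs] at h4 ⊢
  linarith

lemma d_le_HH (d : ℕ) (m r : ℤ → ℤ) : d ≤ HH d m r := Nat.le_add_right _ _

lemma mu_le (D : Dat d m r) (x : ℤ) (a l : ℕ) :
    |mu m (wd d m r x) a l| ≤ (HH d m r : ℤ) ^ l := by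
  induction l with
  | zero => simp [mu]
  | succ l ih =>
    rw [mu, abs_mul, pow_succ, mul_comm]
    apply mul_le_mul ih _ (abs_nonneg _) (by positivity)
    have := le_HH D x (a + l)
    have h1 := abs_nonneg (r (wd d m r x (a + l)))
    have h2 : (0 : ℤ) ≤ d := Nat.cast_nonneg _
    linarith

lemma off_le (D : Dat d m r) (x : ℤ) (a l : ℕ) :
    |off d m r (wd d m r x) a l| ≤ (HH d m r : ℤ) ^ l := by
  induction l with
  | zero => simp [off]
  | succ l ih =>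
    rw [off]
    have h1 := le_HH D x (a + l)
    have h2 : (0 : ℤ) ≤ d := Nat.cast_nonneg _
    have h3 : (d : ℤ) ^ l ≤ (HH d m r : ℤ) ^ l :=
      pow_le_pow_left₀ h2 (by exact_mod_cast d_le_HH d m r) l
    have h4 : (0 : ℤ) ≤ (HH d m r : ℤ) ^ l := by positivity
    calc |m (wd d m r x (a + l)) * off d m r (wd d m r x) a l - (d : ℤ) ^ l * r (wd d m r x (a + l))|
        ≤ |m (wd d m r x (a + l)) * off d m r (wd d m r x) a l| +
          |(d : ℤ) ^ l * r (wd d m r x (a + l))| := abs_sub _ _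
      _ = |m (wd d m r x (a + l))| * |off d m r (wd d m r x) a l| +
          (d : ℤ) ^ l * |r (wd d m r x (a + l))| := by
        rw [abs_mul, abs_mul, abs_of_nonneg (pow_nonneg h2 l)]
      _ ≤ |m (wd d m r x (a + l))| * (HH d m r : ℤ) ^ l +
          (HH d m r : ℤ) ^ l * |r (wd d m r x (a + l))| := by
        apply add_le_add
        · exact mul_le_mul_of_nonneg_left ih (abs_nonneg _)
        · exact mul_le_mul_of_nonneg_right h3 (abs_nonneg _)
      _ = (|m (wd d m r x (a + l))| + |r (wd d m r x (a + l))|) * (HH d m r : ℤ) ^ l := by ring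
      _ ≤ (HH d m r : ℤ) * (HH d m r : ℤ) ^ l := by
        apply mul_le_mul_of_nonneg_right _ h4
        linarith
      _ = (HH d m r : ℤ) ^ (l + 1) := by ring

/-! ### expansion -/

/-- the denominator of the product of the `m i / d` over `[a, a + l)` -/
def dn (d : ℕ) (m : ℤ → ℤ) (w : ℕ → ℤ) (a l : ℕ) : ℕ := ((mu m w a l : ℚ) / (d : ℚ) ^ l).den

/-- the denominators grow exponentially -/
def Exp (d : ℕ) (m r : ℤ → ℤ) (c0 C0 : ℝ) (x : ℤ) : Prop :=
  ∀ a l : ℕ, c0 * l - C0 ≤ Real.log (dn d m (wd d m r x) a l)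

/-! ### pieces with small periods -/

/-- the piece `[A, B)` of the trajectory: an affine map whose data have small height, and which is a
power of a word with fixed point `ξ'` if the piece is long -/
structure PP (d : ℕ) (m r : ℤ → ℤ) (x : ℤ) (ℓ ℓ' A B : ℕ) (ξ ξ' : ℚ) : Prop where
  le : A ≤ B
  fix : (((TG d m r)^[B] x : ℤ) : ℚ) - ξ =
    (mu m (wd d m r x) A (B - A) : ℚ) / (d : ℚ) ^ (B - A) * ((((TG d m r)^[A] x : ℤ) : ℚ) - ξ')
  num : |ξ.num| ≤ (2 * HH d m r : ℤ) ^ ℓ'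
  den : (ξ.den : ℤ) ≤ (2 * HH d m r : ℤ) ^ ℓ'
  num' : |ξ'.num| ≤ (2 * HH d m r : ℤ) ^ ℓ'
  den' : (ξ'.den : ℤ) ≤ (2 * HH d m r : ℤ) ^ ℓ'
  per : ℓ' < B - A → ((((TG d m r)^[A] x : ℤ) : ℚ) = ξ') →
    ∃ π, 1 ≤ π ∧ π ≤ ℓ ∧ A + π ≤ B ∧ (TG d m r)^[A + π] x = (TG d m r)^[A] x

lemma two_le_HH (D : Dat d m r) : (2 : ℤ) ≤ HH d m r := by
  have h1 := D.hd
  have h2 := d_le_HH d m r
  exact_mod_cast h1.trans h2

lemma quot_height {a b : ℤ} (hb : b ≠ 0) : |((a : ℚ) / b).num| ≤ |a| ∧ ((((a : ℚ) / b).den : ℕ) : ℤ) ≤ |b| := by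
  constructor
  · by_cases ha : a = 0
    · rw [ha]; simp
    · have h3 : ((a : ℚ) / b).num ∣ a := by
        rw [← Rat.divInt_eq_div]
        exact Rat.num_dvd _ hb
      exact Int.le_of_dvd (abs_pos.2 ha) ((abs_dvd_abs _ _).2 h3)
  · have h2 : ((((a : ℚ) / b).den : ℕ) : ℤ) ∣ b := by
      rw [← Rat.divInt_eq_div]
      exact Rat.den_dvd _ _
    exact Int.le_of_dvd (abs_pos.2 hb) ((dvd_abs _ _).2 h2)

/-- short pieces -/
lemma PPshort (D : Dat d m r) (x : ℤ) {ℓ ℓ' A B : ℕ} (hAB : A ≤ B) (hs : B - A ≤ ℓ') :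
    ∃ ξ ξ' : ℚ, PP d m r x ℓ ℓ' A B ξ ξ' := by
  have hd0 : (d : ℚ) ≠ 0 := by have := D.hd; positivity
  have hH2 := two_le_HH D
  set l := B - A with hl
  set O := off d m r (wd d m r x) A l with hO
  have hdl : (d : ℤ) ^ l ≠ 0 := pow_ne_zero _ (by have := D.hd; omega)
  have hHpow : (HH d m r : ℤ) ^ l ≤ (2 * HH d m r : ℤ) ^ ℓ' :=
    (pow_le_pow_left₀ (by linarith) (by linarith) l).trans (pow_le_pow_right₀ (by linarith) hs)
  have h1 : (1 : ℤ) ≤ (2 * HH d m r : ℤ) ^ ℓ' := one_le_pow₀ (by linarith)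
  have hq := quot_height (a := O) hdl
  refine ⟨(O : ℚ) / (((d : ℤ) ^ l : ℤ) : ℚ), 0, hAB, ?_, ?_, ?_, ?_, ?_, ?_⟩
  · have h2 := iter_rec D x A l
    rw [show A + l = B by omega] at h2
    have h3 : (d : ℚ) ^ l * (((TG d m r)^[B] x : ℤ) : ℚ) =
        (mu m (wd d m r x) A l : ℚ) * (((TG d m r)^[A] x : ℤ) : ℚ) + O := by exact_mod_cast h2
    have hdp : (d : ℚ) ^ l ≠ 0 := pow_ne_zero _ hd0
    rw [sub_zero]
    push_cast
    rw [sub_eq_iff_eq_add, div_mul_eq_mul_div, ← add_div, eq_div_iff hdp]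
    linear_combination h3
  · exact hq.1.trans ((off_le D x A l).trans hHpow)
  · refine hq.2.trans ?_
    rw [abs_of_nonneg (by positivity)]
    exact (pow_le_pow_left₀ (Nat.cast_nonneg _) (by exact_mod_cast d_le_HH d m r) l).trans hHpow
  · rw [Rat.num_zero, abs_zero]; linarith
  · rw [Rat.den_zero]; exact_mod_cast h1
  · intro h; omega

lemma PPpow (D : Dat d m r) {x : ℤ} {c0 C0 : ℝ} (hE : Exp d m r c0 C0 x) (hc0 : 0 < c0)
    {ℓ ℓ' π : ℕ} (hℓ' : ℓ ≤ ℓ') (hC : C0 ≤ c0 * ℓ') (hπ : 1 ≤ π) (hπℓ : π ≤ ℓ) (A k : ℕ)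
    (hper : ∀ j, A ≤ j → j + π < A + k * π → wd d m r x (j + π) = wd d m r x j) :
    ∃ ξ ξ' : ℚ, PP d m r x ℓ ℓ' A (A + k * π) ξ ξ' := by
  rcases le_or_gt (k * π) ℓ' with hsh | hlong
  · exact PPshort D x (Nat.le_add_right _ _) (by rw [Nat.add_sub_cancel_left]; exact hsh)
  have hd0 : (d : ℚ) ≠ 0 := by have := D.hd; positivity
  set w := wd d m r x with hw
  set M := mu m w A π with hM
  set O := off d m r w A π with hO
  -- one block
  have hblock : ∀ i < k, mu m w (A + i * π) π = M ∧ off d m r w (A + i * π) π = O := by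
    intro i
    induction i with
    | zero => intro _; simp [hM, hO]
    | succ i ih =>
      intro hi
      obtain ⟨h1, h2⟩ := ih (by omega)
      have h3 : ∀ j < π, w (A + (i + 1) * π + j) = w (A + i * π + j) := by
        intro j hj
        have h4 := hper (A + i * π + j) (by omega) (by
          have : (i + 1 + 1) * π ≤ k * π := Nat.mul_le_mul_right _ (by omega)
          have e : (i + 1 + 1) * π = i * π + π + π := by ring
          omega)
        rw [← h4]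
        congr 1
        ring
      exact ⟨by rw [mu_congr h3, h1], by rw [off_congr h3, h2]⟩
  have hmul : ∀ i ≤ k, mu m w A (i * π) = M ^ i := by
    intro i
    induction i with
    | zero => intro _; simp [mu]
    | succ i ih =>
      intro hi
      rw [show (i + 1) * π = i * π + π by ring, mu_add, ih (by omega), (hblock i (by omega)).1,
        pow_succ]
  have hne : (d : ℤ) ^ π - M ≠ 0 := by
    intro h0
    have h1 := hE A (k * π)
    rw [← hw] at h1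
    unfold dn at h1
    rw [hmul k le_rfl] at h1
    have h2 : M = (d : ℤ) ^ π := by linarith
    have h3 : ((M ^ k : ℤ) : ℚ) / (d : ℚ) ^ (k * π) = 1 := by
      rw [h2, mul_comm k π, pow_mul]
      push_cast
      exact div_self (pow_ne_zero _ (pow_ne_zero _ hd0))
    rw [h3] at h1
    simp only [Rat.den_one, Nat.cast_one, Real.log_one] at h1
    have h4 : (ℓ' : ℝ) < ((k * π : ℕ) : ℝ) := by exact_mod_cast hlong
    have h5 := mul_lt_mul_of_pos_left h4 hc0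
    linarith
  have hneQ : (d : ℚ) ^ π - (M : ℚ) ≠ 0 := by
    have : (((d : ℤ) ^ π - M : ℤ) : ℚ) ≠ 0 := by exact_mod_cast hne
    push_cast at this
    exact this
  set ξ : ℚ := (O : ℚ) / ((d : ℚ) ^ π - M) with hξ
  have hξ' : (d : ℚ) ^ π * ξ = M * ξ + O := by
    rw [hξ]; field_simp; ring
  have hstep : ∀ i ≤ k, (((TG d m r)^[A + i * π] x : ℤ) : ℚ) - ξ =
      ((M : ℚ) / (d : ℚ) ^ π) ^ i * ((((TG d m r)^[A] x : ℤ) : ℚ) - ξ) := by
    intro i
    induction i with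
    | zero => intro _; simp
    | succ i ih =>
      intro hi
      have h1 := ih (by omega)
      have h2 := iter_rec D x (A + i * π) π
      rw [← hw, (hblock i (by omega)).1, (hblock i (by omega)).2] at h2
      have h3 : (d : ℚ) ^ π * (((TG d m r)^[A + i * π + π] x : ℤ) : ℚ) =
          M * (((TG d m r)^[A + i * π] x : ℤ) : ℚ) + O := by exact_mod_cast h2
      rw [show A + (i + 1) * π = A + i * π + π by ring, pow_succ, mul_right_comm, ← h1]
      have hdp : (d : ℚ) ^ π ≠ 0 := pow_ne_zero _ hd0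
      field_simp
      linear_combination h3 - hξ'
  have hH2 := two_le_HH D
  have hHpow : (HH d m r : ℤ) ^ π ≤ (HH d m r : ℤ) ^ ℓ' := pow_le_pow_right₀ (by linarith) (by omega)
  have h2H : (2 : ℤ) * (HH d m r : ℤ) ^ ℓ' ≤ (2 * HH d m r : ℤ) ^ ℓ' := by
    rw [mul_pow]
    apply mul_le_mul_of_nonneg_right _ (by positivity)
    exact le_self_pow₀ (by norm_num) (by omega)
  have hHℓ : (0 : ℤ) ≤ (HH d m r : ℤ) ^ ℓ' := by positivity
  have hξe : ξ = ((O : ℤ) : ℚ) / (((d : ℤ) ^ π - M : ℤ) : ℚ) := by rw [hξ]; push_cast; rfl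
  have hnum : |ξ.num| ≤ (2 * HH d m r : ℤ) ^ ℓ' := by
    have h2 := (quot_height (a := O) hne).1
    rw [← hξe] at h2
    have h3 := off_le D x A π
    rw [← hw, ← hO] at h3
    linarith
  have hden : (ξ.den : ℤ) ≤ (2 * HH d m r : ℤ) ^ ℓ' := by
    have h3 := (quot_height (a := O) hne).2
    rw [← hξe] at h3
    have h4 := mu_le D x A π
    rw [← hw, ← hM] at h4
    have h5 : (d : ℤ) ^ π ≤ (HH d m r : ℤ) ^ π :=
      pow_le_pow_left₀ (Nat.cast_nonneg _) (by exact_mod_cast d_le_HH d m r) π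
    have h6 : |(d : ℤ) ^ π - M| ≤ |(d : ℤ) ^ π| + |M| := abs_sub _ _
    rw [abs_of_nonneg (show (0 : ℤ) ≤ (d : ℤ) ^ π by positivity)] at h6
    linarith
  refine ⟨ξ, ξ, Nat.le_add_right _ _, ?_, hnum, hden, hnum, hden, ?_⟩
  · rw [Nat.add_sub_cancel_left, hstep k le_rfl, ← hw, hmul k le_rfl, div_pow, ← pow_mul, mul_comm π k]
    push_cast
    rfl
  · intro hlt hfix
    have hk : 1 ≤ k := by
      by_contra h
      have : k = 0 := by omega
      rw [this, zero_mul, add_zero, Nat.sub_self] at hlt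
      omega
    refine ⟨π, hπ, hπℓ, ?_, ?_⟩
    · have : 1 * π ≤ k * π := Nat.mul_le_mul_right _ hk
      omega
    · have h1 := hstep 1 hk
      rw [hfix, sub_self, mul_zero, one_mul] at h1
      have h2 : (((TG d m r)^[A + π] x : ℤ) : ℚ) = (((TG d m r)^[A] x : ℤ) : ℚ) := by
        rw [hfix]; linarith
      exact_mod_cast h2

/-- a piece with a period is a product of two powers -/
lemma PPtwo (D : Dat d m r) {x : ℤ} {c0 C0 : ℝ} (hE : Exp d m r c0 C0 x) (hc0 : 0 < c0)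
    {ℓ ℓ' π A B : ℕ} (hℓ' : ℓ ≤ ℓ') (hC : C0 ≤ c0 * ℓ') (hAB : A ≤ B) (hπ : 1 ≤ π) (hπℓ : π ≤ ℓ)
    (hper : ∀ j, A ≤ j → j + π < B → wd d m r x (j + π) = wd d m r x j) :
    ∃ (c : ℕ) (ξ ξ' ζ ζ' : ℚ), PP d m r x ℓ ℓ' A c ξ ξ' ∧ PP d m r x ℓ ℓ' c B ζ ζ' := by
  set k := (B - A) / π with hk
  have h1 : k * π ≤ B - A := Nat.div_mul_le_self _ _
  obtain ⟨ξ, ξ', hξ⟩ := PPpow D hE hc0 hℓ' hC hπ hπℓ A k (fun j h2 h3 => hper j h2 (by omega))
  have h2 : (B - A) % π < π := Nat.mod_lt _ hπ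
  have h3 : π * k + (B - A) % π = B - A := Nat.div_add_mod _ _
  have h4 : A + k * π + (B - A) % π = B := by
    rw [mul_comm] at h3; omega
  obtain ⟨ζ, ζ', hζ⟩ := PPshort D x (ℓ := ℓ) (ℓ' := ℓ') (A := A + k * π) (B := B) (by omega) (by omega)
  exact ⟨A + k * π, ξ, ξ', ζ, ζ', hξ, hζ⟩

/-- the word of the residues of the first `n` terms is a concatenation of `s` words with small periods -/
def Spl (w : ℕ → ℤ) (ℓ s n : ℕ) : Prop :=
  ∃ t : ℕ → ℕ, t 0 = 0 ∧ t s = n ∧ (∀ i < s, t i ≤ t (i + 1)) ∧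
    ∀ i < s, ∃ π, 1 ≤ π ∧ π ≤ ℓ ∧ ∀ j, t i ≤ j → j + π < t (i + 1) → w (j + π) = w j

lemma PPall (D : Dat d m r) {x : ℤ} {c0 C0 : ℝ} (hE : Exp d m r c0 C0 x) (hc0 : 0 < c0)
    {ℓ ℓ' s n : ℕ} (hℓ' : ℓ ≤ ℓ') (hC : C0 ≤ c0 * ℓ') (h : Spl (wd d m r x) ℓ s n) :
    ∃ (A : ℕ → ℕ) (ξ ξ' : ℕ → ℚ), A 0 = 0 ∧ A (2 * s) = n ∧
      ∀ i < 2 * s, PP d m r x ℓ ℓ' (A i) (A (i + 1)) (ξ i) (ξ' i) := by
  obtain ⟨t, h0, hs, hmono, hper⟩ := h
  have h1 : ∀ i, ∃ (c : ℕ) (ξ ξ' ζ ζ' : ℚ), i < s → PP d m r x ℓ ℓ' (t i) c ξ ξ' ∧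
      PP d m r x ℓ ℓ' c (t (i + 1)) ζ ζ' := by
    intro i
    by_cases hi : i < s
    · obtain ⟨π, h1, h2, h3⟩ := hper i hi
      obtain ⟨c, ξ, ξ', ζ, ζ', h4⟩ := PPtwo D hE hc0 hℓ' hC (hmono i hi) h1 h2 h3
      exact ⟨c, ξ, ξ', ζ, ζ', fun _ => h4⟩
    · exact ⟨0, 0, 0, 0, 0, fun h => absurd h hi⟩
  choose c ξ ξ' ζ ζ' h2 using h1
  refine ⟨fun i => if i % 2 = 0 then t (i / 2) else c (i / 2),
    fun i => if i % 2 = 0 then ξ (i / 2) else ζ (i / 2),
    fun i => if i % 2 = 0 then ξ' (i / 2) else ζ' (i / 2), by simp [h0], by simp [hs], ?_⟩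
  intro i hi
  have h3 := h2 (i / 2) (by omega)
  rcases Nat.mod_two_eq_zero_or_one i with h4 | h4
  · have h5 : (i + 1) % 2 = 1 := by omega
    have h6 : (i + 1) / 2 = i / 2 := by omega
    simp only [h4, h5, h6, if_true, one_ne_zero, if_false]
    exact h3.1
  · have h5 : (i + 1) % 2 = 0 := by omega
    have h6 : (i + 1) / 2 = i / 2 + 1 := by omega
    simp only [h4, h5, h6, if_true, one_ne_zero, if_false]
    exact h3.2

end

end Pool.Agent.J6H87.SX
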