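import Mathlib
import Pool.Agent.J6H87.SX.FA
import Pool.Agent.J6H87.SW.FB
import Pool.Agent.J6H87.SW.FC

set_option autoImplicit false

/-!
# The germs attached to a sequence of counterexamples
-/

open Finset Filter Topology Pool.Agent.TH932.Germs Pool.Agent.TH551.SU

namespace Pool.Agent.J6H87.SX

open Pool.Agent.J6H87.SW (negl_pow)

/-- sequences of trajectories whose residue words consist of `S` powers of short words -/
structure Seqs (d : ℕ) (m r : ℤ → ℤ) (S : ℕ) (η c0 C0 : ℝ) (x : ℕ → ℤ) (N ℓ ℓ' : ℕ → ℕ)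
    (A : ℕ → ℕ → ℕ) (ξ ξ' : ℕ → ℕ → ℚ) : Prop where
  hN : ∀ t, t ≤ N t
  hℓ : ∀ ε : ℝ, 0 < ε → ∀ᶠ t in (UU : Filter ℕ), (ℓ' t : ℝ) ≤ ε * N t
  hA0 : ∀ t, A t 0 = 0
  hAS : ∀ t, A t S = N t
  hPP : ∀ t, ∀ i < S, PP d m r (x t) (ℓ t) (ℓ' t) (A t i) (A t (i + 1)) (ξ t i) (ξ' t i)
  hc : 0 < c0
  hE : ∀ t, Exp d m r c0 C0 (x t)
  hx : ∀ t, (1 + η) * Real.log |(x t : ℝ)| ≤ Real.log (dn d m (wd d m r (x t)) 0 (N t))

section

variable {d : ℕ} {m r : ℤ → ℤ} {S : ℕ} {η c0 C0 : ℝ} {x : ℕ → ℤ} {N ℓ ℓ' : ℕ → ℕ}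
  {A : ℕ → ℕ → ℕ} {ξ ξ' : ℕ → ℕ → ℚ}

lemma Seqs.mono (h : Seqs d m r S η c0 C0 x N ℓ ℓ' A ξ ξ') (t : ℕ) {i j : ℕ} (hij : i ≤ j) (hj : j ≤ S) :
    A t i ≤ A t j := by
  induction j, hij using Nat.le_induction with
  | base => exact le_rfl
  | succ j hij ih => exact (ih (by omega)).trans (h.hPP t j (by omega)).le

lemma Seqs.le_N (h : Seqs d m r S η c0 C0 x N ℓ ℓ' A ξ ξ') (t : ℕ) {i : ℕ} (hi : i ≤ S) : A t i ≤ N t := by
  rw [← h.hAS t]
  exact h.mono t hi le_rfl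

lemma Seqs.tendsto (h : Seqs d m r S η c0 C0 x N ℓ ℓ' A ξ ξ') :
    Tendsto (fun t => (N t : ℝ)) atTop atTop :=
  tendsto_atTop_mono (fun t => by exact_mod_cast h.hN t) tendsto_natCast_atTop_atTop

/-- the germ attached to the `i`-th cut -/
noncomputable def gg (d : ℕ) (m r : ℤ → ℤ) (x : ℕ → ℤ) (N : ℕ → ℕ) (A : ℕ → ℕ → ℕ) (i : ℕ) : GG :=
  gm fun t => (VV d m r (x t) (N t) (A t i) : ℚ)

lemma gg_ne (D : Dat d m r) (i : ℕ) : gg d m r x N A i ≠ 0 := by
  unfold gg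
  rw [gm_ne_zero]
  exact Eventually.of_forall fun t => by exact_mod_cast VV_ne D (x t) (N t) (A t i)

lemma gg_div (D : Dat d m r) (h : Seqs d m r S η c0 C0 x N ℓ ℓ' A ξ ξ') {i j : ℕ} (hij : i ≤ j)
    (hj : j ≤ S) : gg d m r x N A i / gg d m r x N A j = gm fun t =>
      ((mu m (wd d m r (x t)) (A t i) (A t j - A t i) : ℤ) : ℚ) /
        ((((d : ℤ) ^ (A t j - A t i) : ℤ)) : ℚ) := by
  unfold gg
  rw [gm_div]
  congr 1
  funext t
  have hd0 : (d : ℚ) ≠ 0 := by have := D.hd; positivity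
  have h1 := VV_split (d := d) (m := m) (r := r) (x t) (h.mono t hij hj) (h.le_N t hj)
  have h2 : (VV d m r (x t) (N t) (A t i) : ℚ) * (d : ℚ) ^ (A t j - A t i) =
      (mu m (wd d m r (x t)) (A t i) (A t j - A t i) : ℚ) * VV d m r (x t) (N t) (A t j) := by
    exact_mod_cast h1
  have h3 : (VV d m r (x t) (N t) (A t j) : ℚ) ≠ 0 := by exact_mod_cast VV_ne D _ _ _
  rw [div_eq_div_iff h3 (by push_cast; exact pow_ne_zero _ hd0)]
  push_cast
  exact h2

/-- short distances give equivalent germs -/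
lemma key2 (D : Dat d m r) (h : Seqs d m r S η c0 C0 x N ℓ ℓ' A ξ ξ') {i j : ℕ} (hij : i ≤ j) (hj : j ≤ S)
    (hs : ∀ ε : ℝ, 0 < ε → ∀ᶠ t in (UU : Filter ℕ), ((A t j - A t i : ℕ) : ℝ) ≤ ε * N t) :
    gg d m r x N A i / gg d m r x N A j ∈ KK _ h.tendsto := by
  have hH : 1 ≤ HH d m r := by
    have h1 := D.hd
    have h2 := d_le_HH d m r
    omega
  refine ⟨fun t => mu m (wd d m r (x t)) (A t i) (A t j - A t i), fun t => (d : ℤ) ^ (A t j - A t i),
    ?_, ?_, ?_, gg_div D h hij hj⟩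
  · exact negl_pow h.tendsto hH hs (Eventually.of_forall fun t => mu_le D (x t) _ _)
  · refine negl_pow h.tendsto (by have := D.hd; omega : 1 ≤ d) hs (Eventually.of_forall fun t => ?_)
    rw [abs_of_nonneg (by positivity)]
  · exact Eventually.of_forall fun t => pow_ne_zero _ (by have := D.hd; omega)

/-- equivalent germs have short distances -/
lemma key1 (D : Dat d m r) (h : Seqs d m r S η c0 C0 x N ℓ ℓ' A ξ ξ') {i j : ℕ} (hij : i ≤ j)
    (hj : j ≤ S) (hK : gg d m r x N A i / gg d m r x N A j ∈ KK _ h.tendsto) {ε : ℝ} (hε : 0 < ε) :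
    ∀ᶠ t in (UU : Filter ℕ), ((A t j - A t i : ℕ) : ℝ) ≤ ε * N t := by
  rw [gg_div D h hij hj, mem_KK_iff] at hK
  have hc := h.hc
  filter_upwards [hK.2 (c0 * ε / 2) (by positivity),
    ev_of_atTop (h.tendsto.eventually_ge_atTop (2 * C0 / (c0 * ε)))] with t ht hbig
  set len := A t j - A t i with hlen
  have h1 := h.hE t (A t i) len
  unfold dn at h1
  set q : ℚ := ((mu m (wd d m r (x t)) (A t i) len : ℤ) : ℚ) / (d : ℚ) ^ len with hq
  have hqe : ((mu m (wd d m r (x t)) (A t i) len : ℤ) : ℚ) / ((((d : ℤ) ^ len : ℤ)) : ℚ) = q := by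
    rw [hq]; push_cast; rfl
  rw [hqe] at ht
  have h11 : |(((q.den : ℤ)) : ℝ)| = (q.den : ℝ) := by
    rw [Int.cast_natCast, Nat.abs_cast]
  rw [h11] at ht
  have hq0 : (0 : ℝ) < q.den := by exact_mod_cast q.den_pos
  have h9 := Real.log_le_log hq0 ht
  rw [Real.log_exp] at h9
  rw [div_le_iff₀ (by positivity)] at hbig
  have h10 : c0 * (len : ℝ) ≤ c0 * (ε * N t) := by
    linarith
  exact le_of_mul_le_mul_left h10 hc

/-- the coefficient attached to the `i`-th cut -/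
def EE (S : ℕ) (ξ ξ' : ℕ → ℕ → ℚ) (i t : ℕ) : ℚ :=
  (if i = 0 then 0 else ξ t (i - 1)) - if i < S then ξ' t i else 0

lemma xi_mem (D : Dat d m r) (h : Seqs d m r S η c0 C0 x N ℓ ℓ' A ξ ξ') {i : ℕ} (hi : i < S) :
    gm (fun t => ξ t i) ∈ KK _ h.tendsto ∧ gm (fun t => ξ' t i) ∈ KK _ h.tendsto := by
  have hH : 1 ≤ 2 * HH d m r := by
    have h1 := D.hd
    have h2 := d_le_HH d m r
    omega
  rw [mem_KK_iff, mem_KK_iff]
  refine ⟨⟨?_, ?_⟩, ?_, ?_⟩
  · refine negl_pow h.tendsto hH h.hℓ (Eventually.of_forall fun t => ?_)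
    push_cast
    exact (h.hPP t i hi).num
  · refine negl_pow h.tendsto hH h.hℓ (Eventually.of_forall fun t => ?_)
    rw [abs_of_nonneg (by positivity)]
    push_cast
    exact (h.hPP t i hi).den
  · refine negl_pow h.tendsto hH h.hℓ (Eventually.of_forall fun t => ?_)
    push_cast
    exact (h.hPP t i hi).num'
  · refine negl_pow h.tendsto hH h.hℓ (Eventually.of_forall fun t => ?_)
    rw [abs_of_nonneg (by positivity)]
    push_cast
    exact (h.hPP t i hi).den'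

lemma EE_mem (D : Dat d m r) (h : Seqs d m r S η c0 C0 x N ℓ ℓ' A ξ ξ') {i : ℕ} (hi : i ≤ S) :
    gm (EE S ξ ξ' i) ∈ KK _ h.tendsto := by
  have e : gm (EE S ξ ξ' i) = gm (fun t => if i = 0 then 0 else ξ t (i - 1)) -
      gm (fun t => if i < S then ξ' t i else 0) := by
    rw [gm_sub]
    rfl
  rw [e]
  apply Subfield.sub_mem
  · by_cases h0 : i = 0
    · simp only [h0, if_true]
      exact Subfield.zero_mem _
    · simp only [h0, if_false]
      exact (xi_mem D h (by omega)).1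
  · by_cases h0 : i < S
    · simp only [h0, if_true]
      exact (xi_mem D h h0).2
    · simp only [h0, if_false]
      exact Subfield.zero_mem _

end

end Pool.Agent.J6H87.SX
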