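import Mathlib
import Pool.Agent.J6H87.SX.FD

set_option autoImplicit false

/-!
# Trajectories with simple residue words cycle, general version
-/

open Finset Filter Topology Pool.Agent.TH932.Germs

namespace Pool.Agent.J6H87.SX

variable {d : ℕ} {m r : ℤ → ℤ}

theorem simple_words (D : Dat d m r) (s : ℕ) {η c0 C0 : ℝ} (hη : 0 < η) (hc : 0 < c0) :
    ∃ ε : ℝ, 0 < ε ∧ ∃ X : ℕ, ∀ (x : ℤ) (n ℓ : ℕ), Exp d m r c0 C0 x → X ≤ n →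
      (1 + η) * Real.log |(x : ℝ)| ≤ Real.log (dn d m (wd d m r x) 0 n) → (ℓ : ℝ) ≤ ε * n →
      Spl (wd d m r x) ℓ s n →
      ∃ j π, 1 ≤ π ∧ π ≤ ℓ ∧ j + π ≤ n ∧ (TG d m r)^[j + π] x = (TG d m r)^[j] x := by
  by_contra hcon
  push Not at hcon
  obtain ⟨C1, hC1⟩ := exists_nat_ge (C0 / c0)
  rw [div_le_iff₀ hc] at hC1
  have h1 : ∀ t : ℕ, ∃ (x : ℤ) (n ℓ : ℕ), Exp d m r c0 C0 x ∧ t ≤ n ∧
      (1 + η) * Real.log |(x : ℝ)| ≤ Real.log (dn d m (wd d m r x) 0 n) ∧ ((t : ℝ) + 1) * ℓ ≤ n ∧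
      Spl (wd d m r x) ℓ s n ∧
      ∀ j π, 1 ≤ π → π ≤ ℓ → j + π ≤ n → (TG d m r)^[j + π] x ≠ (TG d m r)^[j] x := by
    intro t
    obtain ⟨x, n, ℓ, h0, h1, h2, h3, h4, h5⟩ := hcon (1 / ((t : ℝ) + 1)) (by positivity) t
    refine ⟨x, n, ℓ, h0, h1, h2, ?_, h4, h5⟩
    have ht : (0 : ℝ) < (t : ℝ) + 1 := by positivity
    rw [div_mul_eq_mul_div, one_mul, le_div_iff₀ ht] at h3
    linarith
  choose x n ℓ h0 h1 h2 h3 h4 h5 using h1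
  have hℓ' : ∀ t, ℓ t ≤ ℓ t + C1 := fun t => Nat.le_add_right _ _
  have hC' : ∀ t, C0 ≤ c0 * ((ℓ t + C1 : ℕ) : ℝ) := by
    intro t
    push_cast
    have : 0 ≤ c0 * (ℓ t : ℝ) := by positivity
    linarith
  choose A ξ ξ' h6 h7 h8 using fun t => PPall D (h0 t) hc (hℓ' t) (hC' t) (h4 t)
  have hneg : ∀ ε : ℝ, 0 < ε → ∀ᶠ t in (UU : Filter ℕ), ((ℓ t + C1 : ℕ) : ℝ) ≤ ε * n t := by
    intro ε hε
    filter_upwards [ev_of_atTop (tendsto_natCast_atTop_atTop.eventually_ge_atTop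
      ((2 * (C1 + 1) / ε : ℝ)))] with t ht
    rw [div_le_iff₀ hε] at ht
    have e1 : (t : ℝ) ≤ n t := by exact_mod_cast h1 t
    have e2 := h3 t
    have e3 : (0 : ℝ) ≤ ℓ t := Nat.cast_nonneg _
    have e4 : (0 : ℝ) ≤ C1 := Nat.cast_nonneg _
    push_cast
    have e5 : (ℓ t : ℝ) * 2 ≤ ε * n t := by
      have e6 : 2 * (ℓ t : ℝ) ≤ (t * ε) * ℓ t := mul_le_mul_of_nonneg_right (by linarith) e3
      have e7 : (t : ℝ) * ℓ t ≤ n t := by linarith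
      have e8 := mul_le_mul_of_nonneg_left e7 hε.le
      linarith
    have e6 : (C1 : ℝ) * 2 ≤ ε * n t := by
      have e8 := mul_le_mul_of_nonneg_left e1 hε.le
      linarith
    linarith
  have hS : Seqs d m r (2 * s) η c0 C0 x n ℓ (fun t => ℓ t + C1) A ξ ξ' :=
    ⟨h1, hneg, h6, h7, h8, hc, h0, h2⟩
  obtain ⟨j, hj, hev⟩ := main_germ D hη hS
  obtain ⟨t, h9, h10⟩ := hev.exists
  obtain ⟨π, h11, h12, h13, h14⟩ := (h8 t j hj).per h9 h10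
  exact h5 t (A t j) π h11 h12 (h13.trans (hS.le_N t (by omega))) h14

end Pool.Agent.J6H87.SX
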