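import Mathlib
import Pool.Agent.H319R2.LeighBridge
import Pool.Agent.J6H87.SX.DA

set_option autoImplicit false

/-!
# Leigh's classes: the sequence of states of a trajectory, and the growth of the denominators
-/

open Finset

namespace Pool.Agent.J6H87.SX

open Pool.Agent.H319R2.Leigh (T P Data Class Lam)
open Pool.Agent.H319R2.M (GM)

variable {d : ℕ} {m r b : ℤ → ℤ} {e : ℤ → ℕ} {C : Finset (ℤ × ℕ)} {ρ : ℤ × ℕ → ℝ}

/-- the data for all integers -/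
lemma datL (D : Data d m r b e) : Dat d (fun i => m (i % d)) (fun i => r (i % d)) := by
  refine ⟨D.two_le, fun i => (Pool.Agent.H319R2.Leigh.gm D).m_ne i, fun x => ?_⟩
  simp only [Int.emod_emod_of_dvd, dvd_refl]
  have h := (Pool.Agent.H319R2.Leigh.gm D).T_mul x
  exact Dvd.intro _ h

lemma TG_eq (d : ℕ) (m r : ℤ → ℤ) :
    TG d (fun i => m (i % d)) (fun i => r (i % d)) = T d m r := by
  funext x
  unfold T TG
  simp only [Int.emod_emod_of_dvd, dvd_refl]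

/-- positive transitions -/
lemma P_pos {B B' : ℤ × ℕ} (h : 0 < P d m r e B B') :
    B'.2 = B.2 * e (B.1 % d) / Nat.gcd (B.2 * e (B.1 % d)) d ∧ 0 ≤ B'.1 ∧
      B'.1 < d * B'.2 ∧ T d m r B.1 ≡ B'.1 [ZMOD (B.2 * e (B.1 % d) : ℕ)] := by
  unfold P at h
  split_ifs at h with h1
  · exact h1
  · exact absurd h (lt_irrefl _)

lemma P_snd {B B' : ℤ × ℕ} (h : 0 < P d m r e B B') :
    B'.2 * Nat.gcd (B.2 * e (B.1 % d)) d = B.2 * e (B.1 % d) := by
  rw [(P_pos h).1]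
  exact Nat.div_mul_cancel (Nat.gcd_dvd_left _ _)

/-- a state with at least two successors -/
def Br (d : ℕ) (e : ℤ → ℕ) (B : ℤ × ℕ) : Prop := ¬ d ∣ B.2 * e (B.1 % d)

/-- a state without this property has only one successor -/
lemma succ_unique (D : Data d m r b e) {B B' B'' : ℤ × ℕ} (hB : ¬ Br d e B)
    (h1 : 0 < P d m r e B B') (h2 : 0 < P d m r e B B'') : B' = B'' := by
  have hd0 : 0 < d := by have := D.two_le; omega
  unfold Br at hB
  push Not at hB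
  obtain ⟨k, hk⟩ := hB
  have hg : Nat.gcd (B.2 * e (B.1 % d)) d = d := Nat.gcd_eq_right ⟨k, hk⟩
  obtain ⟨a1, a2, a3, a4⟩ := P_pos h1
  obtain ⟨b1, b2, b3, b4⟩ := P_pos h2
  rw [hg, hk, Nat.mul_div_cancel_left _ hd0] at a1 b1
  rw [hk] at a4 b4
  have h3 : B'.1 ≡ B''.1 [ZMOD ((d * k : ℕ) : ℤ)] := a4.symm.trans b4
  rw [a1] at a3
  rw [b1] at b3
  have h4 : B'.1 = B''.1 := by
    have e1 : B'.1 % ((d * k : ℕ) : ℤ) = B'.1 := Int.emod_eq_of_lt a2 (by push_cast; exact a3)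
    have e2 : B''.1 % ((d * k : ℕ) : ℤ) = B''.1 := Int.emod_eq_of_lt b2 (by push_cast; exact b3)
    rw [← e1, ← e2]
    exact h3
  exact Prod.ext h4 (a1.trans b1.symm)

lemma step (D : Data d m r b e) (hC : Class d m r e C ρ) {B : ℤ × ℕ} (hB : B ∈ C) {y : ℤ}
    (hy : y ≡ B.1 [ZMOD (d * B.2 : ℕ)]) :
    ∃ B' ∈ C, T d m r y ≡ B'.1 [ZMOD (d * B'.2 : ℕ)] ∧ 0 < P d m r e B B' := by
  set g := Pool.Agent.H319R2.Leigh.gm D with hg
  have hf : g.Fac b e := Pool.Agent.H319R2.Leigh.gm_fac D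
  have hC' := Pool.Agent.H319R2.Leigh.gm_cls D hC
  have hk := hC'.pos B hB
  rw [Int.modEq_iff_dvd] at hy
  obtain ⟨c, hc⟩ := hy
  push_cast at hc
  have hye : y = B.1 + g.d * B.2 * (-c) := by
    have : ((g.d : ℕ) : ℤ) = (d : ℤ) := rfl
    rw [this]
    linarith
  have hi0 := g.res_nonneg B.1
  have hi1 := g.res_lt B.1
  have hT : g.T y = g.T B.1 + (B.2 * e (B.1 % g.d) : ℕ) * (b (B.1 % g.d) * (-c)) := by
    rw [hye, g.T_affine, hf.eq _ hi0 hi1]
    push_cast; ring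
  have hP := GM.P_target hf B hk (b (B.1 % g.d) * (-c))
  refine ⟨_, hC'.closed B hB _ hP, ?_, hP⟩
  have hT' : T d m r y = g.T y := rfl
  rw [hT', hT]
  simp only
  push_cast
  exact (Int.mod_modEq _ _).symm

/-- the sequence of states of a trajectory -/
lemma exists_states (D : Data d m r b e) (hC : Class d m r e C ρ) {x : ℤ}
    (hx : ∃ B ∈ C, x ≡ B.1 [ZMOD (d * B.2 : ℕ)]) :
    ∃ f : ℕ → ℤ × ℕ, (∀ n, f n ∈ C) ∧ (∀ n, (T d m r)^[n] x ≡ (f n).1 [ZMOD (d * (f n).2 : ℕ)]) ∧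
      ∀ n, 0 < P d m r e (f n) (f (n + 1)) := by
  obtain ⟨B0, hB0, hx0⟩ := hx
  let Ω : ℕ → Type := fun n => {B : ℤ × ℕ // B ∈ C ∧ (T d m r)^[n] x ≡ B.1 [ZMOD (d * B.2 : ℕ)]}
  have hst : ∀ n (B : Ω n), ∃ B' : Ω (n + 1), 0 < P d m r e B.1 B'.1 := by
    intro n B
    obtain ⟨B', h1, h2, h3⟩ := step D hC B.2.1 B.2.2
    refine ⟨⟨B', h1, ?_⟩, h3⟩
    rw [Function.iterate_succ_apply']
    exact h2
  choose nx hnx using hst
  let F : ∀ n, Ω n := fun n => Nat.rec (motive := Ω) ⟨B0, hB0, hx0⟩ (fun n B => nx n B) n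
  exact ⟨fun n => (F n).1, fun n => (F n).2.1, fun n => (F n).2.2, fun n => hnx n (F n)⟩

/-- every path meets a state with at least two successors soon -/
lemma exists_Br (D : Data d m r b e) (hC : Class d m r e C ρ) (hBr : ∃ B ∈ C, Br d e B) :
    ∃ N : ℕ, ∀ f : ℕ → ℤ × ℕ, f 0 ∈ C → (∀ n, 0 < P d m r e (f n) (f (n + 1))) →
      ∃ j ≤ N, Br d e (f j) := by
  obtain ⟨B1, hB1, hBr1⟩ := hBr
  have h1 : ∀ B ∈ C, ∃ N : ℕ, ∀ f : ℕ → ℤ × ℕ, f 0 = B → (∀ n, 0 < P d m r e (f n) (f (n + 1))) →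
      ∃ j ≤ N, Br d e (f j) := by
    intro B hB
    have h2 := hC.comm B hB B1 hB1
    induction h2 using Relation.ReflTransGen.head_induction_on with
    | refl => exact ⟨0, fun f h0 _ => ⟨0, le_rfl, by rw [h0]; exact hBr1⟩⟩
    | head hstep hrest ih =>
      rename_i B B'
      obtain ⟨N, hN⟩ := ih (hC.closed _ hB _ hstep)
      refine ⟨N + 1, fun f h0 hf => ?_⟩
      by_cases hb : Br d e B
      · exact ⟨0, Nat.zero_le _, by rw [h0]; exact hb⟩
      · have h3 : f 1 = B' := by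
          have := hf 0
          rw [h0] at this
          exact succ_unique D hb this hstep
        obtain ⟨j, hj, hbj⟩ := hN (fun n => f (n + 1)) h3 (fun n => hf (n + 1))
        exact ⟨j + 1, by omega, hbj⟩
  classical
  choose! N hN using h1
  refine ⟨∑ B ∈ C, N B, fun f h0 hf => ?_⟩
  obtain ⟨j, hj, hbj⟩ := hN (f 0) h0 f rfl hf
  exact ⟨j, hj.trans (single_le_sum (f := N) (fun _ _ => Nat.zero_le _) h0), hbj⟩

end Pool.Agent.J6H87.SX
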