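import Mathlib
import Pool.Agent.J6H87.SX.LA

set_option autoImplicit false

/-!
# Leigh's classes: growth of the denominators
-/

open Finset

namespace Pool.Agent.J6H87.SX

open Pool.Agent.H319R2.Leigh (T P Data Class Lam)
open Pool.Agent.H319R2.M (GM)

variable {d : ℕ} {m r b : ℤ → ℤ} {e : ℤ → ℕ} {C : Finset (ℤ × ℕ)} {ρ : ℤ × ℕ → ℝ}

/-- the number of successors of a state -/
def nsucc (d : ℕ) (e : ℤ → ℕ) (B : ℤ × ℕ) : ℕ := d / Nat.gcd (B.2 * e (B.1 % d)) d

lemma nsucc_pos (hd : 2 ≤ d) (B : ℤ × ℕ) : 1 ≤ nsucc d e B := by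
  have hd0 : 0 < d := by omega
  exact Nat.div_pos (Nat.le_of_dvd hd0 (Nat.gcd_dvd_right _ _)) (Nat.gcd_pos_of_pos_right _ hd0)

lemma nsucc_Br (hd : 2 ≤ d) {B : ℤ × ℕ} (h : Br d e B) : 2 ≤ nsucc d e B := by
  have hd0 : 0 < d := by omega
  have h1 := nsucc_pos (e := e) hd B
  by_contra h2
  have h3 : nsucc d e B = 1 := by omega
  apply h
  unfold nsucc at h3
  have h4 := Nat.div_mul_cancel (Nat.gcd_dvd_right (B.2 * e (B.1 % d)) d)
  rw [h3, one_mul] at h4
  have h5 := Nat.gcd_dvd_left (B.2 * e (B.1 % d)) d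
  rw [h4] at h5
  exact h5

/-- product formula -/
lemma prod_formula (D : Data d m r b e) {x : ℤ} {f : ℕ → ℤ × ℕ}
    (hf : ∀ n, (T d m r)^[n] x ≡ (f n).1 [ZMOD (d * (f n).2 : ℕ)])
    (hP : ∀ n, 0 < P d m r e (f n) (f (n + 1))) (a l : ℕ) :
    mu (fun i => m (i % d)) (fun n => (T d m r)^[n] x % d) a l * (f a).2 *
        (∏ j ∈ range l, nsucc d e (f (a + j)) : ℕ) =
      (d : ℤ) ^ l * (∏ j ∈ range l, b ((T d m r)^[a + j] x % d)) * (f (a + l)).2 := by
  have hd0 : (0 : ℤ) < d := by have := D.two_le; omega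
  have hw : ∀ n, (f n).1 % d = (T d m r)^[n] x % d := by
    intro n
    have h1 := (hf n).of_dvd (show (d : ℤ) ∣ ((d * (f n).2 : ℕ) : ℤ) by
      push_cast; exact Dvd.intro _ rfl)
    exact h1.symm
  induction l with
  | zero => simp [mu]
  | succ l ih =>
    rw [mu, prod_range_succ, prod_range_succ]
    have h1 := P_snd (hP (a + l))
    have h2 : nsucc d e (f (a + l)) * Nat.gcd ((f (a + l)).2 * e ((f (a + l)).1 % d)) d = d :=
      Nat.div_mul_cancel (Nat.gcd_dvd_right _ _)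
    have h3 := D.fac _ (Int.emod_nonneg ((T d m r)^[a + l] x) hd0.ne')
      (Int.emod_lt_of_pos ((T d m r)^[a + l] x) hd0)
    rw [hw] at h1 h2
    set G := Nat.gcd ((f (a + l)).2 * e ((T d m r)^[a + l] x % d)) d with hG
    set q := nsucc d e (f (a + l)) with hq
    set w := (T d m r)^[a + l] x % d with hwd
    have h4 : ((f (a + l + 1)).2 : ℤ) * G = (f (a + l)).2 * e w := by exact_mod_cast h1
    have h5 : (q : ℤ) * G = d := by exact_mod_cast h2
    have h6 : w % d = w := Int.emod_eq_of_lt (Int.emod_nonneg _ hd0.ne') (Int.emod_lt_of_pos _ hd0)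
    simp only [h6]
    rw [h3, show a + (l + 1) = a + l + 1 by ring]
    push_cast at ih ⊢
    rw [pow_succ]
    calc b w * (e w : ℤ) * mu (fun i => m (i % d)) (fun n => (T d m r)^[n] x % d) a l * (f a).2 *
          ((∏ j ∈ range l, (nsucc d e (f (a + j)) : ℤ)) * q) =
        (mu (fun i => m (i % d)) (fun n => (T d m r)^[n] x % d) a l * (f a).2 *
          ∏ j ∈ range l, (nsucc d e (f (a + j)) : ℤ)) * (b w * e w * q) := by ring
      _ = (d : ℤ) ^ l * (∏ j ∈ range l, b ((T d m r)^[a + j] x % d)) * b w *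
          (((f (a + l)).2 * e w) * q) := by rw [ih]; ring
      _ = (d : ℤ) ^ l * (∏ j ∈ range l, b ((T d m r)^[a + j] x % d)) * b w *
          ((f (a + l + 1)).2 * (q * G)) := by rw [← h4]; ring
      _ = _ := by rw [h5]; ring

/-- the product of the numbers of successors divides the denominator, up to the modulus of the
last state -/
lemma le_den (D : Data d m r b e) {x : ℤ} {f : ℕ → ℤ × ℕ} (hpos : ∀ n, 1 ≤ (f n).2)
    (hf : ∀ n, (T d m r)^[n] x ≡ (f n).1 [ZMOD (d * (f n).2 : ℕ)])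
    (hP : ∀ n, 0 < P d m r e (f n) (f (n + 1))) (a l : ℕ) :
    (∏ j ∈ range l, nsucc d e (f (a + j)) : ℕ) ≤
      dn d (fun i => m (i % d)) (fun n => (T d m r)^[n] x % d) a l * (f (a + l)).2 := by
  have hd0 : (d : ℤ) ≠ 0 := by have := D.two_le; omega
  have hd0' : (0 : ℤ) < d := by have := D.two_le; omega
  have h1 := prod_formula D hf hP a l
  set M := mu (fun i => m (i % d)) (fun n => (T d m r)^[n] x % d) a l with hM
  set Q := (∏ j ∈ range l, nsucc d e (f (a + j)) : ℕ) with hQ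
  set BB := (∏ j ∈ range l, b ((T d m r)^[a + j] x % d)) with hBB
  have hdn : dn d (fun i => m (i % d)) (fun n => (T d m r)^[n] x % d) a l =
      ((M : ℚ) / (d : ℚ) ^ l).den := rfl
  rw [hdn]
  set q : ℚ := (M : ℚ) / (d : ℚ) ^ l with hq
  have hdl : (d : ℚ) ^ l ≠ 0 := pow_ne_zero _ (by exact_mod_cast hd0)
  have h2 : (M : ℚ) * q.den = q.num * (d : ℚ) ^ l := by
    have h3 : q * (d : ℚ) ^ l = M := by rw [hq]; field_simp
    have h4 : (q.den : ℚ) ≠ 0 := by exact_mod_cast q.den_ne_zero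
    have h5 : q * q.den = q.num := by
      exact Rat.mul_den_eq_num q
    rw [← h3, ← h5]
    ring
  have h3 : M * q.den = q.num * (d : ℤ) ^ l := by exact_mod_cast h2
  -- `Q` divides `BB * (k * den)`
  have h4 : (d : ℤ) ^ l * (q.num * (f a).2 * Q) = (d : ℤ) ^ l * (BB * ((f (a + l)).2 * q.den)) := by
    calc (d : ℤ) ^ l * (q.num * (f a).2 * Q) = (q.num * (d : ℤ) ^ l) * (f a).2 * Q := by ring
      _ = (M * (f a).2 * Q) * q.den := by rw [← h3]; ring
      _ = _ := by rw [h1]; ring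
  have h5 := mul_left_cancel₀ (pow_ne_zero _ hd0) h4
  have h6 : (Q : ℤ) ∣ BB * ((f (a + l)).2 * q.den) := ⟨q.num * (f a).2, by rw [← h5]; ring⟩
  have hQd : (Q : ℤ) ∣ (d : ℤ) ^ l := by
    rw [hQ]
    push_cast
    calc (∏ j ∈ range l, (nsucc d e (f (a + j)) : ℤ)) ∣ ∏ j ∈ range l, (d : ℤ) := by
          apply prod_dvd_prod_of_dvd
          intro j _
          have : nsucc d e (f (a + j)) ∣ d := Nat.div_dvd_of_dvd (Nat.gcd_dvd_right _ _)
          exact_mod_cast this
      _ = (d : ℤ) ^ l := by rw [prod_const, card_range]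
  have hcop : IsCoprime (Q : ℤ) BB := by
    apply IsCoprime.of_isCoprime_of_dvd_left _ hQd
    apply IsCoprime.pow_left
    rw [hBB]
    apply IsCoprime.prod_right
    intro j _
    exact (D.cop _ (Int.emod_nonneg _ hd0) (Int.emod_lt_of_pos _ hd0')).symm
  have h7 : (Q : ℤ) ∣ ((f (a + l)).2 * q.den : ℕ) := by
    push_cast
    exact hcop.dvd_of_dvd_mul_left h6
  have h8 : Q ∣ (f (a + l)).2 * q.den := by exact_mod_cast h7
  rw [mul_comm q.den]
  exact Nat.le_of_dvd (Nat.mul_pos (hpos _) q.den_pos) h8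

/-- exponential growth of the product of the numbers of successors -/
lemma prod_ge (hd : 2 ≤ d) {N : ℕ} {f : ℕ → ℤ × ℕ}
    (hN : ∀ a, ∃ j ≤ N, Br d e (f (a + j))) (a k : ℕ) :
    2 ^ k ≤ ∏ j ∈ range ((N + 1) * k), nsucc d e (f (a + j)) := by
  induction k with
  | zero => simp
  | succ k ih =>
    rw [mul_add, mul_one, prod_range_add, pow_succ]
    apply Nat.mul_le_mul ih
    obtain ⟨j, hj, hbj⟩ := hN (a + (N + 1) * k)
    have h1 : nsucc d e (f (a + ((N + 1) * k + j))) ≤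
        ∏ i ∈ range (N + 1), nsucc d e (f (a + ((N + 1) * k + i))) := by
      exact single_le_prod' (f := fun i => nsucc d e (f (a + ((N + 1) * k + i))))
        (fun i _ => nsucc_pos hd _) (mem_range.2 (by omega))
    refine le_trans ?_ h1
    rw [← add_assoc]
    exact nsucc_Br hd hbj

/-- the denominators grow exponentially in a class with a state having two successors -/
theorem exp_class (D : Data d m r b e) (hC : Class d m r e C ρ) (hBr : ∃ B ∈ C, Br d e B) :
    ∃ c0 C0 : ℝ, 0 < c0 ∧ ∀ x : ℤ, (∃ B ∈ C, x ≡ B.1 [ZMOD (d * B.2 : ℕ)]) →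
      Exp d (fun i => m (i % d)) (fun i => r (i % d)) c0 C0 x := by
  have hd2 := D.two_le
  obtain ⟨N, hN⟩ := exists_Br D hC hBr
  set K : ℕ := ∑ B ∈ C, B.2 with hK
  have hl2 : 0 < Real.log 2 := Real.log_pos (by norm_num)
  refine ⟨Real.log 2 / (N + 1), Real.log 2 + Real.log K, by positivity, fun x hx a l => ?_⟩
  obtain ⟨f, hfC, hf, hP⟩ := exists_states D hC hx
  have hpos : ∀ n, 1 ≤ (f n).2 := fun n => (Pool.Agent.H319R2.Leigh.gm_cls D hC).pos _ (hfC n)
  have h1 := le_den D hpos hf hP a l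
  have hw : wd d (fun i => m (i % d)) (fun i => r (i % d)) x =
      fun n => (T d m r)^[n] x % d := by
    funext n
    unfold wd
    rw [TG_eq]
  rw [hw]
  have hNa : ∀ a, ∃ j ≤ N, Br d e (f (a + j)) := by
    intro a
    obtain ⟨j, hj, hb⟩ := hN (fun n => f (a + n)) (hfC _) (fun n => hP (a + n))
    exact ⟨j, hj, hb⟩
  have h2 : 2 ^ (l / (N + 1)) ≤ ∏ j ∈ range l, nsucc d e (f (a + j)) := by
    refine (prod_ge hd2 hNa a (l / (N + 1))).trans ?_
    exact prod_le_prod_of_subset_of_one_le' (range_subset_range.2 (Nat.mul_div_le _ _))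
      (fun i _ _ => nsucc_pos hd2 _)
  have h3 : (f (a + l)).2 ≤ K := single_le_sum (f := fun B : ℤ × ℕ => B.2)
    (fun _ _ => Nat.zero_le _) (hfC (a + l))
  set dd := dn d (fun i => m (i % d)) (fun n => (T d m r)^[n] x % d) a l with hdd
  have hdd0 : 0 < dd := Rat.den_pos _
  have hK0 : 0 < K := lt_of_lt_of_le (hpos (a + l)) h3
  have h4 : 2 ^ (l / (N + 1)) ≤ dd * K := h2.trans (h1.trans (Nat.mul_le_mul_left _ h3))
  have h5 : ((2 : ℝ) ^ (l / (N + 1))) ≤ (dd : ℝ) * K := by exact_mod_cast h4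
  have h6 := Real.log_le_log (by positivity) h5
  rw [Real.log_pow, Real.log_mul (by positivity) (by positivity)] at h6
  have h7 : (l : ℝ) / (N + 1) ≤ ((l / (N + 1) : ℕ) : ℝ) + 1 := by
    have h8 := Nat.lt_succ_floor ((l : ℝ) / ((N + 1 : ℕ) : ℝ))
    rw [Nat.floor_div_eq_div] at h8
    push_cast at h8
    exact h8.le
  have h8 := mul_le_mul_of_nonneg_right h7 hl2.le
  have h9 : Real.log 2 / (N + 1) * (l : ℝ) = (l : ℝ) / (N + 1) * Real.log 2 := by
    field_simp
  rw [h9]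
  linarith

end Pool.Agent.J6H87.SX
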