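import Mathlib
import Pool.Agent.J6H87.SX.LB
import Pool.Agent.J6H87.SX.FE

set_option autoImplicit false

/-!
# Contracting classes contain a state with two successors; the theorem for classes
-/

open Finset

namespace Pool.Agent.J6H87.SX

open Pool.Agent.H319R2.Leigh (T P Data Class Lam gm gm_fac gm_cls log_Lam)
open Pool.Agent.H319R2.M (GM)

variable {d : ℕ} {m r b : ℤ → ℤ} {e : ℤ → ℕ} {C : Finset (ℤ × ℕ)} {ρ : ℤ × ℕ → ℝ}

/-- contracting classes contain a state with two successors -/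
theorem Br_of_Lam (D : Data d m r b e) (hC : Class d m r e C ρ) (hL : Lam d m C ρ < 1) :
    ∃ B ∈ C, Br d e B := by
  by_contra hcon
  push Not at hcon
  have hd2 := D.two_le
  have hd0 : 0 < d := by omega
  have hdz : (0 : ℤ) < d := by exact_mod_cast hd0
  have hdr : (0 : ℝ) < d := by exact_mod_cast hd0
  have hpos := (gm_cls D hC).pos
  have h1 : ∀ B ∈ C, ∀ B' ∈ C, 0 < P d m r e B B' → (B'.2 : ℝ) * d = B.2 * e (B.1 % d) := by
    intro B hB B' _ hP
    have h2 := P_snd hP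
    have h3 : d ∣ B.2 * e (B.1 % d) := not_not.1 (hcon B hB)
    rw [Nat.gcd_eq_right h3] at h2
    exact_mod_cast h2
  have h2 : ∀ B ∈ C, (∑ B' ∈ C, P d m r e B B' * Real.log B'.2) - Real.log B.2 ≤
      Real.log ((gm D).a (B.1 % (gm D).d)) := by
    intro B hB
    have h3 : ∑ B' ∈ C, P d m r e B B' = 1 :=
      GM.sum_P_one (gm_fac D) C B (hpos B hB) (hC.closed B hB)
    have hB2 : (0 : ℝ) < B.2 := by exact_mod_cast hpos B hB
    have he : (0 : ℝ) < e (B.1 % d) := by
      exact_mod_cast D.pos _ (Int.emod_nonneg _ hdz.ne') (Int.emod_lt_of_pos _ hdz)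
    have h4 : ∑ B' ∈ C, P d m r e B B' * Real.log B'.2 =
        Real.log (B.2 * e (B.1 % d) / d) := by
      rw [← one_mul (Real.log (B.2 * e (B.1 % d) / d)), ← h3, sum_mul]
      apply sum_congr rfl
      intro B' hB'
      by_cases hP : 0 < P d m r e B B'
      · have h5 := h1 B hB B' hB' hP
        rw [← h5, mul_div_cancel_right₀ _ hdr.ne']
      · have h6 : P d m r e B B' = 0 := le_antisymm (not_lt.1 hP) (GM.P_nonneg (g := gm D) B B')
        rw [h6, zero_mul, zero_mul]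
    rw [h4, ← Real.log_div (by positivity) hB2.ne']
    apply Real.log_le_log (by positivity)
    have h7 := D.fac _ (Int.emod_nonneg B.1 hdz.ne') (Int.emod_lt_of_pos B.1 hdz)
    have h8 : (gm D).a (B.1 % (gm D).d) = |((m (B.1 % d) : ℤ) : ℝ)| / d := rfl
    rw [h8, h7]
    push_cast
    rw [abs_mul, Nat.abs_cast]
    have h9 : (1 : ℝ) ≤ |((b (B.1 % d) : ℤ) : ℝ)| := by
      have h10 : b (B.1 % d) ≠ 0 := by
        intro h0
        have := D.cop _ (Int.emod_nonneg B.1 hdz.ne') (Int.emod_lt_of_pos B.1 hdz)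
        rw [h0, isCoprime_zero_left, Int.isUnit_iff] at this
        omega
      exact_mod_cast Int.one_le_abs h10
    calc (B.2 : ℝ) * e (B.1 % d) / d / B.2 = 1 * (e (B.1 % d) : ℝ) / d := by field_simp
      _ ≤ |((b (B.1 % d) : ℤ) : ℝ)| * e (B.1 % d) / d := by
        apply div_le_div_of_nonneg_right _ hdr.le
        exact mul_le_mul_of_nonneg_right h9 he.le
  have h3 : ∑ B ∈ C, ρ B * ((∑ B' ∈ C, P d m r e B B' * Real.log B'.2) - Real.log B.2) ≤
      Real.log (Lam d m C ρ) := by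
    rw [log_Lam D hC]
    exact sum_le_sum fun B hB => mul_le_mul_of_nonneg_left (h2 B hB) (hC.nonneg B hB)
  have h4 : ∑ B ∈ C, ρ B * ((∑ B' ∈ C, P d m r e B B' * Real.log B'.2) - Real.log B.2) = 0 := by
    simp only [mul_sub, sum_sub_distrib, mul_sum]
    rw [sum_comm]
    have h5 : ∀ B' ∈ C, ∑ B ∈ C, ρ B * (P d m r e B B' * Real.log B'.2) = ρ B' * Real.log B'.2 := by
      intro B' hB'
      rw [← hC.stat B' hB', sum_mul]
      exact sum_congr rfl fun B _ => by ring
    rw [sum_congr rfl h5, sub_self]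
  have hLpos : 0 < Lam d m C ρ := by
    unfold Lam
    apply prod_pos
    intro i hi
    rw [mem_range] at hi
    have h := (gm D).ne i (by positivity) (by exact_mod_cast hi)
    have h2 : ((m (i : ℤ) : ℤ) : ℝ) ≠ 0 := by exact_mod_cast h
    positivity
  have h5 := Real.log_neg hLpos hL
  rw [h4] at h3
  linarith

/-- trajectories in a class with a state having two successors -/
theorem simple_words_class (D : Data d m r b e) (hC : Class d m r e C ρ) (hBr : ∃ B ∈ C, Br d e B)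
    (s : ℕ) {η : ℝ} (hη : 0 < η) :
    ∃ ε : ℝ, 0 < ε ∧ ∃ X : ℕ, ∀ (x : ℤ) (n ℓ : ℕ), (∃ B ∈ C, x ≡ B.1 [ZMOD (d * B.2 : ℕ)]) → X ≤ n →
      (1 + η) * Real.log |(x : ℝ)| ≤
        Real.log (dn d (fun i => m (i % d)) (fun i => (T d m r)^[i] x % d) 0 n) → (ℓ : ℝ) ≤ ε * n →
      Spl (fun i => (T d m r)^[i] x % d) ℓ s n →
      ∃ j π, 1 ≤ π ∧ π ≤ ℓ ∧ j + π ≤ n ∧ (T d m r)^[j + π] x = (T d m r)^[j] x := by
  obtain ⟨c0, C0, hc0, hE⟩ := exp_class D hC hBr
  obtain ⟨ε, hε, X, h⟩ := simple_words (datL D) s (C0 := C0) hη hc0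
  refine ⟨ε, hε, X, fun x n ℓ hx h1 h2 h3 h4 => ?_⟩
  have hw : wd d (fun i => m (i % d)) (fun i => r (i % d)) x =
      fun n => (T d m r)^[n] x % d := by
    funext n
    unfold wd
    rw [TG_eq]
  have h5 := h x n ℓ (hE x hx) h1
  rw [hw, TG_eq] at h5
  exact h5 h2 h3 h4

end Pool.Agent.J6H87.SX
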